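import Pool.Agent.H68.TG.Targets

/-!
Module PAS of the project TG (one pass of the tag system).
-/

set_option autoImplicit false

open List Pool.Agent.H68.TG

namespace Pool.Agent.H74.TG

lemma emb_app (a b : List Bool) : emb (a ++ b) = emb a ++ emb b := by
  induction a with
  | nil => simp [emb]
  | cons c a ih => cases c <;> simp [emb, ih]

/-- the current word: `w` is not yet read, `o` is written -/
def cur (s : Bool) (w o : List Bool) : List (Fin 3) := (emb w ++ emb o).drop (cond s 1 0)

lemma emb_ne {w : List Bool} (h : w ≠ []) : 1 ≤ (emb w).length := by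
  cases w with
  | nil => exact absurd rfl h
  | cons c w => cases c <;> simp [emb]

lemma step_ff (w o : List Bool) (h : 2 ≤ (cur false (false :: w) o).length) :
    step (cur false (false :: w) o) = cur true w (o ++ [true]) := by
  have h1 : cur false (false :: w) o = 0 :: (emb w ++ emb o) := by simp [cur, emb]
  rw [h1] at h ⊢
  have h2 : 1 ≤ (emb w ++ emb o).length := by simpa using h
  have h3 : cur true w (o ++ [true]) = (emb w ++ emb o ++ [1, 2]).drop 1 := by
    simp [cur, emb_app, emb]
  rw [h3, List.drop_append_of_le_length h2]
  simp [step, prd]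

lemma step_ft (w o : List Bool) :
    step (cur false (true :: w) o) = cur false w (o ++ [false]) := by
  have h1 : cur false (true :: w) o = 1 :: 2 :: (emb w ++ emb o) := by simp [cur, emb]
  rw [h1]
  simp [step, prd, cur, emb_app, emb]

lemma step_tt (w o : List Bool) (h : 2 ≤ (cur true (true :: w) o).length) :
    step (cur true (true :: w) o) = cur true w (o ++ [false, false, false]) := by
  have h1 : cur true (true :: w) o = 2 :: (emb w ++ emb o) := by simp [cur, emb]
  rw [h1] at h ⊢
  have h2 : 1 ≤ (emb w ++ emb o).length := by simpa using h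
  have h3 : cur true w (o ++ [false, false, false]) = (emb w ++ emb o ++ [0, 0, 0]).drop 1 := by
    simp [cur, emb_app, emb]
  rw [h3, List.drop_append_of_le_length h2]
  simp [step, prd]

lemma cur_tf (w o : List Bool) : cur true (false :: w) o = cur false w o := by
  simp [cur, emb]

lemma main (w : List Bool) : ∀ (s : Bool) (o : List Bool), (2 ≤ (cur s w o).length ∨ w = []) →
    ∃ n, (1 ≤ n ∨ w = [] ∨ (s = true ∧ w = [false])) ∧
      step^[n] (cur s w o) = cur (st s w) [] (o ++ tr s w) ∧
      ∀ j < n, 2 ≤ (step^[j] (cur s w o)).length := by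
  induction w with
  | nil =>
    intro s o _
    refine ⟨0, Or.inr (Or.inl rfl), ?_, fun j hj => absurd hj (Nat.not_lt_zero j)⟩
    cases s <;> simp [cur, st, tr]
  | cons c w ih =>
    intro s o h
    have hlen : 2 ≤ (cur s (c :: w) o).length := by
      rcases h with h | h
      · exact h
      · exact absurd h (List.cons_ne_nil _ _)
    have key : ∀ (s' : Bool) (o' : List Bool), step (cur s (c :: w) o) = cur s' w (o ++ o') →
        (2 ≤ (cur s' w (o ++ o')).length ∨ w = []) → st s (c :: w) = st s' w →
        tr s (c :: w) = o' ++ tr s' w →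
        ∃ n, (1 ≤ n ∨ c :: w = [] ∨ (s = true ∧ c :: w = [false])) ∧
          step^[n] (cur s (c :: w) o) = cur (st s (c :: w)) [] (o ++ tr s (c :: w)) ∧
          ∀ j < n, 2 ≤ (step^[j] (cur s (c :: w) o)).length := by
      intro s' o' h1 h2 h3 h4
      obtain ⟨n, -, hn, hj⟩ := ih s' (o ++ o') h2
      refine ⟨n + 1, Or.inl (by omega), ?_, ?_⟩
      · rw [Function.iterate_succ_apply, h1, hn, h3, h4, List.append_assoc]
      · intro j hjn
        cases j with
        | zero => exact hlen
        | succ j =>
          rw [Function.iterate_succ_apply, h1]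
          exact hj j (by omega)
    cases s
    · cases c
      · refine key true [true] (step_ff w o hlen) ?_ rfl rfl
        by_cases hw : w = []
        · exact Or.inr hw
        · left
          have := emb_ne hw
          simp [cur, emb_app, emb]
          omega
      · refine key false [false] (step_ft w o) ?_ rfl rfl
        by_cases hw : w = []
        · exact Or.inr hw
        · left
          have := emb_ne hw
          simp [cur, emb_app, emb]
          omega
    · cases c
      · rw [cur_tf] at hlen ⊢
        obtain ⟨n, h1, hn, hj⟩ := ih false o (Or.inl hlen)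
        refine ⟨n, ?_, hn, hj⟩
        rcases h1 with h1 | h1 | h1
        · exact Or.inl h1
        · exact Or.inr (Or.inr ⟨rfl, by rw [h1]⟩)
        · exact absurd h1.1 (by simp)
      · refine key true [false, false, false] (step_tt w o hlen) ?_ rfl rfl
        by_cases hw : w = []
        · exact Or.inr hw
        · left
          have := emb_ne hw
          simp [cur, emb_app, emb]
          omega

theorem pf_PAS : T_PAS := by
  intro q hq
  obtain ⟨s, w⟩ := q
  have h0 : tape (s, w) = cur s w [] := by simp [tape, cur, emb]
  have h1 : tape (pass (s, w)) = cur (st s w) [] ([] ++ tr s w) := by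
    simp [tape, cur, emb, Pool.Agent.H68.TG.pass]
  obtain ⟨n, h2, h3, h4⟩ := main w s [] (Or.inl (by rw [← h0]; exact hq))
  rw [h0, h1]
  refine ⟨n, ?_, h3, h4⟩
  rcases h2 with h2 | h2 | h2
  · exact h2
  · subst h2
    simp [tape, emb] at hq
  · obtain ⟨rfl, rfl⟩ := h2
    simp [tape, emb] at hq

end Pool.Agent.H74.TG
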