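import Pool.Agent.H15.TG.Targets

/-!
MP_51eb24_ag, row MNM of the board tga_modules: one slice.
-/

set_option autoImplicit false
set_option linter.unusedVariables false

namespace Pool.Agent.H74.TG

open MvPolynomial Pool.Agent.H2.ST Pool.Agent.H15.TG

namespace MNM

theorem phi_sub_C {k : Type} [Field k] {m d : ℕ} (π : Fin (d + 1) → Pol k m)
    (a : Fin (d + 1) → ℕ) (s : Pol k m) (c : k) : phi π a (s - C c) = phi π a s := by
  unfold phi
  refine Finset.sum_congr rfl fun i _ => ?_
  rw [br_sub, br_C, sub_zero]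

theorem td_pos {k : Type} [Field k] {m : ℕ} {p : Pol k m} (h : ∀ c : k, p ≠ C c) :
    0 < p.totalDegree := by
  rcases Nat.eq_zero_or_pos p.totalDegree with h0 | h0
  · exact absurd (totalDegree_eq_zero_iff_eq_C.1 h0) (h _)
  · exact h0

end MNM

open MNM

theorem pf_MNM (hVEX : T_VEX) (hRFC : T_RFC) (hDIV : T_DIV) (hHKP : T_HKP) (hSHF : T_SHF)
    (hCMB : T_CMB) (hNEG : T_NEG) (hPHR : T_PHR) (hPFC : T_PFC) : T_MNM := by
  intro k _ _ _ m d W K H f π ψ a c0 h
  have hgr : Gr W := h.toGd.toFd.toDat.toPGr.toGr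
  obtain ⟨p1, -, -, -, p5⟩ := hPHR k m d W K H f π ψ a c0 h
  have hπ0 : ∀ i, π i ≠ 0 := fun i => (h.pp i).ne_zero
  have hprod0 : ∏ j, π j ≠ 0 := Finset.prod_ne_zero_iff.2 fun i _ => hπ0 i
  have hKπ : ∀ i, π i ∈ Kp π := fun i => Algebra.subset_adjoin ⟨i, rfl⟩
  have hCK : ∀ c : k, (C c : Pol k m) ∈ Kp π := fun c => (Kp π).algebraMap_mem c
  have hCK' : ∀ c : k, (C c : Pol k m) ∈ K := fun c => K.algebraMap_mem c
  have hCW : ∀ c : k, (C c : Pol k m) ∈ W 0 := fun c => algebraMap_mem_gr hgr c
  have hfK : f ∈ Kp π := by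
    rw [h.fe]
    exact (Kp π).mul_mem (hCK _) (prod_mem fun i _ => pow_mem (hKπ i) _)
  have hphi0 : ∀ χ s, Vd W K f π χ s → phi π a s ≠ 0 := by
    intro χ s hs h0
    have h1 := p1 s
    rw [h0, mul_zero] at h1
    exact (mul_ne_zero hprod0 hs.2.2.2) h1
  have hphiK : ∀ χ s, Vd W K f π χ s → phi π a s ∈ Kp π := by
    intro χ s hs
    unfold phi
    refine sum_mem fun i _ => ?_
    exact (Kp π).mul_mem ((Kp π).mul_mem (hCK _) (prod_mem fun j _ => hKπ j)) (hs.2.2.1 i)
  have hfc : ∀ c : k, 0 < (f - C c).totalDegree := by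
    intro c
    refine td_pos fun c' hc' => h.fn ?_
    have h1 : f = C (c + c') := by
      rw [C_add, ← hc']; ring
    have h2 := h.fc0
    rw [h1, constantCoeff_C] at h2
    rw [h1, h2, C_0]
  have hπc : ∀ i, 0 < (π i).totalDegree := by
    intro i
    refine td_pos fun c' hc' => hπ0 i ?_
    have h2 := h.van (ψ i) (h.ψ0 i) (π i) (h.wp i)
    rw [hc', constantCoeff_C] at h2
    rw [hc', h2, C_0]
  have main : ∀ N : ℕ, ∀ (χ : Fin d → ℤ) (s : Pol k m), Vd W K f π χ s →
      (phi π a s).totalDegree = N →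
      ∃ (j0 : Fin (d + 1)) (r : Pol k m), r ∈ K ∧ r ∈ W (-ψ j0) ∧
        (∀ l, l ≠ j0 → br (π l) r = 0) ∧ br (π j0) r = 1 := by
    intro N
    induction N using Nat.strong_induction_on with
    | _ N ih =>
    intro χ s hs hN
    rcases hHKP k m d W K H f π ψ a c0 h (χ + ∑ i, ψ i) (phi π a s) (hphiK χ s hs)
      (p5 χ s hs.2.1) (hphi0 χ s hs) with ⟨c, hc, hdvd⟩ | ⟨c', b, hc', hb⟩
    · obtain ⟨s', hs', hphi', s1, hs1⟩ := hRFC k m d W K H f π ψ a c0 h χ s c hs hc hdvd
      obtain ⟨hv1, hph1⟩ := hDIV k m d W K H f π ψ a c0 h χ 0 s' (f - C c) s1 hs'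
        ((Kp π).sub_mem hfK (hCK c)) ((W 0).sub_mem h.f0 (hCW c)) hs1
      refine ih _ ?_ (χ - 0) s1 hv1 rfl
      rw [← hN, ← hphi', hph1, totalDegree_mul_of_isDomain (by
        intro h0
        have := hfc c
        rw [h0, totalDegree_zero] at this
        exact lt_irrefl _ this) (hphi0 _ _ hv1)]
      have := hfc c
      omega
    · obtain ⟨h1, h2, h3⟩ := hSHF k m d W K H f π ψ a c0 h χ s c' b hs hc' hb
      rcases hCMB d a b h.dpos h.ap h1 with ⟨j0, hj0, hj1⟩ | ⟨j0, i, q1, q2, q3, Nn, r, M, hN0, hr0,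
        hr⟩
      · obtain ⟨s', c'', β, v1, -, v3, v4, v5, v6, v7⟩ := h3 j0 fun i hi => by
          rw [hj1 i hi]; exact one_ne_zero
        have hβ : ∀ i, β i = 0 := by
          intro i
          by_cases hi : i = j0
          · rw [hi, v6, hj0]
          · have e1 := v7 i hi
            rw [hj1 i hi] at e1
            omega
        refine ⟨j0, c''⁻¹ • s', K.smul_mem v1.1 _, ?_, ?_, ?_⟩
        · have e1 : χ = -ψ j0 := by
            rw [h2, Finset.sum_eq_single j0]
            · rw [hj0]; simp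
            · intro i _ hi
              rw [hj1 i hi]; simp
            · intro hn
              exact absurd (Finset.mem_univ _) hn
          rw [← e1]
          exact (W χ).smul_mem _ v1.2.1
        · intro l hl
          rw [br_smul, v3 l hl, smul_zero]
        · rw [br_smul, v5]
          have e1 : ∏ i, π i ^ β i = 1 := by
            refine Finset.prod_eq_one fun i _ => ?_
            rw [hβ i, pow_zero]
          rw [e1, mul_one, smul_eq_C_mul, ← C_mul, inv_mul_cancel₀ v4, C_1]
      · obtain ⟨s', c'', β, v1, v2, v3, v4, v5, v6, v7⟩ := h3 j0 q1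
        have hβ : 1 ≤ β i := by
          by_cases hi : i = j0
          · have e1 := q2 hi
            rw [hi] at e1 ⊢
            omega
          · have e1 := v7 i hi
            have e2 := q3 hi
            omega
        have hdv : ∀ j, π i ∣ br (π j) s' := by
          intro j
          by_cases hj : j = j0
          · rw [hj, v5]
            refine Dvd.dvd.mul_left ?_ _
            exact (dvd_pow_self _ (by omega)).trans
              (Finset.dvd_prod_of_mem (fun i => π i ^ β i) (Finset.mem_univ i))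
          · rw [v3 j hj]
            exact dvd_zero _
        have hrel : (Nn : ℤ) • χ + ∑ j, (r j : ℤ) • ψ j = 0 := by
          rw [h2, Finset.smul_sum, ← Finset.sum_add_distrib]
          have e1 : ∀ l : Fin (d + 1), (Nn : ℤ) • (((b l : ℤ) - 1) • ψ l) + (r l : ℤ) • ψ l =
              M • ((a l : ℤ) • ψ l) := by
            intro l
            rw [hr l]
            module
          rw [Finset.sum_congr rfl fun l _ => e1 l, ← Finset.smul_sum, h.ra, smul_zero]
        obtain ⟨c, ⟨s1, hs1⟩, hc⟩ := hNEG k m d W K H f π ψ a c0 h i χ s' Nn r v1.1 v1.2.1 hdv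
          hN0 hr0 hrel
        have hV : Vd W K f π χ (s' - C c) := by
          refine ⟨K.sub_mem v1.1 (hCK' c), ?_, ?_, ?_⟩
          · by_cases hχ : χ = 0
            · rw [hχ]
              have e1 := v1.2.1
              rw [hχ] at e1
              exact (W 0).sub_mem e1 (hCW c)
            · rw [hc hχ, C_0, sub_zero]
              exact v1.2.1
          · intro j
            rw [br_sub, br_C, sub_zero]
            exact v1.2.2.1 j
          · rw [br_sub, br_C, sub_zero]
            exact v1.2.2.2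
        obtain ⟨hv1, hph1⟩ := hDIV k m d W K H f π ψ a c0 h χ (ψ i) (s' - C c) (π i) s1 hV
          (hKπ i) (h.wp i) hs1
        refine ih _ ?_ (χ - ψ i) s1 hv1 rfl
        rw [← hN, ← v2, ← phi_sub_C π a s' c, hph1, totalDegree_mul_of_isDomain (hπ0 i)
          (hphi0 _ _ hv1)]
        have := hπc i
        omega
  obtain ⟨χ, s, hs⟩ := hVEX k m d W K H f π ψ a c0 h
  exact main _ χ s hs rfl

end Pool.Agent.H74.TG
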