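import Pool.Agent.H68.TG.Targets

/-! Module CTN of the tag system board: the exceptions below `N` are counted by passing to the
next power of two. -/

namespace Pool.Agent.H74.TG.CTN

open List Pool.Agent.H68.TG

theorem red_mono {w : List (Fin 3)} {L L' : ℝ} (h : L ≤ L') (hr : Red w L) : Red w L' := by
  obtain ⟨k, h1, h2⟩ := hr
  exact ⟨k, h1, h2.trans h⟩

theorem two_rpow_le {N n : ℕ} (hN : 1 ≤ N) (h : 2 ^ n ≤ 2 * N) {c : ℝ} (hc0 : 0 ≤ c)
    (hc1 : c ≤ 1) : (2 : ℝ) ^ (c * n) ≤ 2 * (N : ℝ) ^ c := by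
  have hNpos : (0 : ℝ) < N := by exact_mod_cast hN
  have h1 : (2 : ℝ) ^ (c * n) = ((2 : ℝ) ^ n) ^ c := by
    rw [mul_comm, Real.rpow_mul (by norm_num), Real.rpow_natCast]
  rw [h1]
  have h2 : ((2 : ℝ) ^ n) ≤ 2 * N := by exact_mod_cast h
  calc ((2 : ℝ) ^ n) ^ c ≤ (2 * N) ^ c := Real.rpow_le_rpow (by positivity) h2 hc0
    _ = 2 ^ c * (N : ℝ) ^ c := Real.mul_rpow (by norm_num) hNpos.le
    _ ≤ 2 * (N : ℝ) ^ c := by
        apply mul_le_mul_of_nonneg_right _ (by positivity)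
        calc (2 : ℝ) ^ c ≤ 2 ^ (1 : ℝ) := Real.rpow_le_rpow_of_exponent_le (by norm_num) hc1
          _ = 2 := by norm_num

theorem pf_CTN (h : T_CTB) : T_CTN := by
  intro s m r V N hm hm3 hr3 hN
  have hNpos : (0 : ℝ) < N := by exact_mod_cast hN
  have hle : N ≤ 2 ^ Nat.clog 2 N := Nat.le_pow_clog (by norm_num) N
  have h2n : (2 : ℕ) ^ Nat.clog 2 N ≤ 2 * N := by
    rcases Nat.lt_or_ge 1 N with h1 | h1
    · have := Nat.pow_pred_clog_lt_self (b := 2) (x := N) (by norm_num) h1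
      have hpos : 0 < Nat.clog 2 N := Nat.clog_pos (by norm_num) h1
      obtain ⟨k, hk⟩ : ∃ k, Nat.clog 2 N = k + 1 := ⟨Nat.clog 2 N - 1, by omega⟩
      rw [hk] at this ⊢
      simp only [Nat.pred_succ] at this
      rw [pow_succ]
      omega
    · have : N = 1 := by omega
      subst this
      simp
  set n := Nat.clog 2 N with hn
  have h1 := h s m r V n hm hm3 hr3
  have h23 : 4 * (2 : ℝ) ^ ((23 / 25 : ℝ) * n) ≤ 8 * (N : ℝ) ^ (23 / 25 : ℝ) := by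
    have := two_rpow_le hN h2n (c := 23 / 25) (by norm_num) (by norm_num)
    linarith
  have h299 := two_rpow_le hN h2n (c := 299 / 300) (by norm_num) (by norm_num)
  have hsub : {i : ℕ | i < N ∧
      ¬ Red (tape (cfg (s, m * i + r, one V))) (8 * (N : ℝ) ^ (23 / 25 : ℝ))} ⊆
      {i : ℕ | i < 2 ^ n ∧
        ¬ Red (tape (cfg (s, m * i + r, one V))) (4 * (2 : ℝ) ^ ((23 / 25 : ℝ) * n))} := by
    rintro i ⟨hi1, hi2⟩
    exact ⟨lt_of_lt_of_le hi1 hle, fun hr => hi2 (red_mono h23 hr)⟩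
  have hfin : {i : ℕ | i < 2 ^ n ∧
        ¬ Red (tape (cfg (s, m * i + r, one V))) (4 * (2 : ℝ) ^ ((23 / 25 : ℝ) * n))}.Finite :=
    (Set.finite_lt_nat (2 ^ n)).subset fun i hi => hi.1
  have hcard := Set.ncard_le_ncard hsub hfin
  have hcard' : (({i : ℕ | i < N ∧
      ¬ Red (tape (cfg (s, m * i + r, one V))) (8 * (N : ℝ) ^ (23 / 25 : ℝ))}.ncard : ℕ) : ℝ) ≤
      (({i : ℕ | i < 2 ^ n ∧
        ¬ Red (tape (cfg (s, m * i + r, one V))) (4 * (2 : ℝ) ^ ((23 / 25 : ℝ) * n))}.ncard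
          : ℕ) : ℝ) := by
    exact_mod_cast hcard
  refine hcard'.trans (h1.trans ?_)
  calc (2 * (V.length : ℝ) + 36) * (2 : ℝ) ^ ((299 / 300 : ℝ) * n)
      ≤ (2 * (V.length : ℝ) + 36) * (2 * (N : ℝ) ^ (299 / 300 : ℝ)) := by
        apply mul_le_mul_of_nonneg_left h299 (by positivity)
    _ = (4 * (V.length : ℝ) + 72) * (N : ℝ) ^ (299 / 300 : ℝ) := by ring

end Pool.Agent.H74.TG.CTN
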