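import Pool.Agent.H68.TG.Targets

/-!
Module FSH of the project TG (reading a prefix).
-/

set_option autoImplicit false

open List Pool.Agent.H68.TG

namespace Pool.Agent.H74.TG.FSH

lemma emb_app (a b : List Bool) : emb (a ++ b) = emb a ++ emb b := by
  induction a with
  | nil => simp [emb]
  | cons c a ih => cases c <;> simp [emb, ih]

lemma one_sym (s c : Bool) (w : List Bool) : (tape (s, c :: w)).length < 2 ∨
    ∃ n, step^[n] (tape (s, c :: w)) = tape (st s [c], w ++ tr s [c]) := by
  by_cases hl : (tape (s, c :: w)).length < 2
  · exact Or.inl hl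
  right
  cases s
  · cases c
    · refine ⟨1, ?_⟩
      have h1 : tape (false, false :: w) = 0 :: emb w := by simp [tape, emb]
      rw [h1] at hl
      have h2 : 1 ≤ (emb w).length := by
        simp only [List.length_cons] at hl
        omega
      have h3 : tape (st false [false], w ++ tr false [false]) = (emb w ++ [1, 2]).drop 1 := by
        simp [tape, emb_app, emb, st, tr]
      rw [h1, h3, List.drop_append_of_le_length h2]
      simp [step, prd]
    · refine ⟨1, ?_⟩
      simp [tape, emb_app, emb, st, tr, step, prd]
  · cases c
    · refine ⟨0, ?_⟩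
      simp [tape, emb, st, tr]
    · refine ⟨1, ?_⟩
      have h1 : tape (true, true :: w) = 2 :: emb w := by simp [tape, emb]
      rw [h1] at hl
      have h2 : 1 ≤ (emb w).length := by
        simp only [List.length_cons] at hl
        omega
      have h3 : tape (st true [true], w ++ tr true [true]) = (emb w ++ [0, 0, 0]).drop 1 := by
        simp [tape, emb_app, emb, st, tr]
      rw [h1, h3, List.drop_append_of_le_length h2]
      simp [step, prd]

lemma st_cons (s c : Bool) (p : List Bool) : st s (c :: p) = st (st s [c]) p := by
  cases s <;> cases c <;> rfl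

lemma tr_cons (s c : Bool) (p : List Bool) : tr s (c :: p) = tr s [c] ++ tr (st s [c]) p := by
  cases s <;> cases c <;> rfl

theorem pf_FSH : T_FSH := by
  intro s p
  induction p generalizing s with
  | nil =>
    intro w
    refine ⟨0, Or.inl ?_⟩
    simp [st, tr]
  | cons c p ih =>
    intro w
    rcases one_sym s c (p ++ w) with h | ⟨n, hn⟩
    · exact ⟨0, Or.inr h⟩
    · obtain ⟨k, hk⟩ := ih (st s [c]) (w ++ tr s [c])
      refine ⟨k + n, ?_⟩
      rw [Function.iterate_add_apply, List.cons_append, hn, st_cons s c p, tr_cons s c p]
      rw [List.append_assoc p w, ← List.append_assoc w]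
      exact hk

end Pool.Agent.H74.TG.FSH
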