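import Pool.Agent.H68.TG.Targets

/-!
Module HLT of the project TG (stopping in terms of passes).
-/

set_option autoImplicit false

open List Pool.Agent.H68.TG

namespace Pool.Agent.H74.TG.HLT

theorem pf_HLT (h : T_PAS) : T_HLT := by
  intro q
  constructor
  · rintro ⟨t, ht⟩
    induction t using Nat.strong_induction_on generalizing q with
    | _ t ih =>
      by_cases hq : (tape q).length < 2
      · exact ⟨0, hq⟩
      · obtain ⟨n, hn1, hn, hj⟩ := h q (by omega)
        have htn : n ≤ t := by
          by_contra hlt
          have := hj t (by omega)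
          omega
        have h1 : step^[t - n] (tape (Pool.Agent.H68.TG.pass q)) = step^[t] (tape q) := by
          rw [← hn, ← Function.iterate_add_apply, Nat.sub_add_cancel htn]
        obtain ⟨k, hk⟩ := ih (t - n) (by omega) (Pool.Agent.H68.TG.pass q) (by rw [h1]; exact ht)
        refine ⟨k + 1, ?_⟩
        rw [Function.iterate_succ_apply]
        exact hk
  · rintro ⟨k, hk⟩
    induction k generalizing q with
    | zero => exact ⟨0, hk⟩
    | succ k ih =>
      by_cases hq : (tape q).length < 2
      · exact ⟨0, hq⟩
      · obtain ⟨n, hn1, hn, hj⟩ := h q (by omega)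
        rw [Function.iterate_succ_apply] at hk
        obtain ⟨m, hm⟩ := ih (Pool.Agent.H68.TG.pass q) hk
        refine ⟨m + n, ?_⟩
        rw [Function.iterate_add_apply, hn]
        exact hm

end Pool.Agent.H74.TG.HLT
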